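import Pool.Agent.W792.WA.All4

/-!
# Absolutely continuous spectrum at small disorder for a dense set of kinetic energies and for all
single site distributions, the uniform distribution included

We consider the Anderson models `K(D) + V` on `ℓ²(ℤ^d)`, where `K(D)` is the convolution operator
with the symbol `K`, a continuous function on the torus (the kinetic energy; `-Δ` has the symbol
`∑ (2 - 2 cos (2 π k_i))`), and `V = σ ξ` with independent `ξ(x)` of a common distribution `ν`.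

(1) For every nonconstant continuous kinetic energy `K` and every `ε > 0` there is a continuous function
`b` with `|b| ≤ ε`, such that `b(-Δ)` has hopping amplitudes at most `ε / (1 + |x|) ^ (d / 3)`, with the
following property: for EVERY distribution `ν` which is not a point mass and has a finite moment of
order 60 there is `σ₀ > 0` such that for `0 < |σ| ≤ σ₀` the spectrum of `K(D) + b(-Δ) + σ ξ` in
`(min K, max K)` is almost surely purely absolutely continuous and fills this interval.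

(2) The case of the operator `Δ_ω = -Δ + ω` of the problem: for every `ε > 0` there is `b` as above such
that the spectrum of `-Δ + b(-Δ) + ω` in the whole band `(0, 4 d)` is almost surely purely absolutely
continuous for `ω` uniformly distributed in `[-c, c]`, for all small `c` (and `b` also serves all other
distributions, for instance the Bernoulli distribution).

So pure singularity of the spectrum for all `c > 0` (the statement of Q1) fails for a dense set of
kinetic energies, in every dimension, with one and the same perturbation `b` for all distributions.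

The starting result `MP_1906c1_mp.GaussianACSpectrum` is the case `K = Δ`, `ν` Gaussian. The
library theorem used here (`Pool.Agent.W792.WA.Al.kfdc`, helper792 and team) is in no starting hand-in.
-/

namespace Pool.Agent.Results.MP_562b47_mp.EveryKineticEnergy

open MeasureTheory

noncomputable section

/-- The hopping amplitudes of the convolution operator `K(D)` on `ℤ^d`: the Fourier coefficients of
the symbol `K`. -/
def hopping {d : ℕ} (K : C(UnitAddTorus (Fin d), ℝ)) (x : Fin d → ℤ) : ℂ :=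
  UnitAddTorus.mFourierCoeff (fun k : UnitAddTorus (Fin d) => ((K k : ℝ) : ℂ)) x

/-- The symbol `∑ i (2 - 2 cos (2 π k_i))` of `-Δ`, `-Δ u (x) = -∑_{|n|=1} (u(x+n) - u(x))`. -/
def lapSymbol (d : ℕ) : C(UnitAddTorus (Fin d), ℝ) where
  toFun := fun k => ∑ i, (2 - 2 * (fourier 1 (k i)).re)
  continuous_toFun := by fun_prop

/-- `u` is square summable and `(K(D) + V - z) u = δ_x`, i.e. `u = (K(D) + V - z)⁻¹ δ_x`. -/
def IsGreen {d : ℕ} (K : C(UnitAddTorus (Fin d), ℝ)) (V : (Fin d → ℤ) → ℝ) (z : ℂ)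
    (x : Fin d → ℤ) (u : (Fin d → ℤ) → ℂ) : Prop :=
  Summable (fun y => ‖u y‖ ^ 2) ∧ ∀ y, (∑' y', hopping K (y - y') * u y')
    + ((V y : ℝ) : ℂ) * u y - z * u y = if y = x then 1 else 0

/-- `u` is square summable and `(-Δ + b(-Δ) + V - z) u = δ_x`. -/
def IsGreenLap (b : C(ℝ, ℝ)) {d : ℕ} (V : (Fin d → ℤ) → ℝ) (z : ℂ) (x : Fin d → ℤ)
    (u : (Fin d → ℤ) → ℂ) : Prop :=
  Summable (fun y => ‖u y‖ ^ 2) ∧ ∀ y,
    (-∑ i : Fin d, ((u (y + Pi.single i 1) - u y) + (u (y - Pi.single i 1) - u y)))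
    + (∑' y', hopping (b.comp (lapSymbol d)) (y - y') * u y') + ((V y : ℝ) : ℂ) * u y
    - z * u y = if y = x then 1 else 0

/-- Purely absolutely continuous spectrum filling the interval `(a₁, a₂)`: for every site `x` the
spectral measure `μ` of `δ_x`, i.e. the finite measure with
`⟨δ_x, (H - z)⁻¹ δ_x⟩ = ∫ dμ(E) / (E - z)`, has on `(a₁, a₂)` a density `h`, positive almost
everywhere there. Here `G z x u` says that `u = (H - z)⁻¹ δ_x`. -/
def ACOn {d : ℕ} (G : ℂ → (Fin d → ℤ) → ((Fin d → ℤ) → ℂ) → Prop) (a₁ a₂ : ℝ) : Prop :=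
  ∀ x : Fin d → ℤ, ∃ (μ : Measure ℝ) (h : ℝ → ℝ), IsFiniteMeasure μ ∧
    (∀ z : ℂ, 0 < z.im → (∃ u, G z x u) ∧ ∀ u, G z x u → u x = ∫ E : ℝ, 1 / ((E : ℂ) - z) ∂μ) ∧
    Measurable h ∧ (∀ᵐ E ∂(volume.restrict (Set.Ioo a₁ a₂)), 0 < h E) ∧
    μ.restrict (Set.Ioo a₁ a₂)
      = (volume.restrict (Set.Ioo a₁ a₂)).withDensity fun E => ENNReal.ofReal (h E)

/-- The single site distributions: probability measures with a finite moment of order 60 which are
not concentrated in one point. -/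
def SiteLaw (ν : Measure ℝ) : Prop :=
  IsProbabilityMeasure ν ∧ Integrable (fun t : ℝ => t ^ 60) ν ∧ ∀ a : ℝ, ν {a} < 1

/-- The uniform distribution on `[-c, c]`. -/
def unif (c : ℝ) : Measure ℝ := (ENNReal.ofReal (2 * c))⁻¹ • volume.restrict (Set.Icc (-c) c)

theorem acon_of {d : ℕ} {K : C(UnitAddTorus (Fin d), ℝ)} {σ : ℝ} {ξ : (Fin d → ℤ) → ℝ}
    {a₁ a₂ : ℝ} (h : W792.WA.ACIK K σ ξ a₁ a₂) : ACOn (IsGreen K fun x => σ * ξ x) a₁ a₂ := h

theorem lap_eq (d : ℕ) : W792.LL.lap d = lapSymbol d := by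
  ext k
  rfl

theorem neg_law {ν : Measure ℝ} (h : SiteLaw ν) : SiteLaw (ν.map fun t => -t) := by
  obtain ⟨h1, h2, h3⟩ := h
  have hm : Measurable fun t : ℝ => -t := measurable_neg
  refine ⟨Measure.isProbabilityMeasure_map hm.aemeasurable, ?_, fun a => ?_⟩
  · rw [integrable_map_measure (by fun_prop) hm.aemeasurable]
    refine h2.congr (Filter.Eventually.of_forall fun t => ?_)
    simp only [Function.comp]
    exact (Even.neg_pow (by decide) t).symm
  · rw [Measure.map_apply hm (measurableSet_singleton a)]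
    have : (fun t : ℝ => -t) ⁻¹' {a} = {-a} := by
      ext t
      simp only [Set.mem_preimage, Set.mem_singleton_iff]
      constructor
      · intro h; rw [← h, neg_neg]
      · intro h; rw [h, neg_neg]
    rw [this]
    exact h3 _

/-- both signs of the coupling constant -/
theorem both {d : ℕ} {G : ((Fin d → ℤ) → ℝ) → ℂ → (Fin d → ℤ) → ((Fin d → ℤ) → ℂ) → Prop}
    {a₁ a₂ : ℝ}
    (h : ∀ ν : Measure ℝ, SiteLaw ν → ∃ σ₀ : ℝ, 0 < σ₀ ∧ ∀ σ : ℝ, 0 < σ → σ ≤ σ₀ →
      ∀ᵐ ξ ∂(Measure.infinitePi fun _ : Fin d → ℤ => ν), ACOn (G fun x => σ * ξ x) a₁ a₂)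
    (ν : Measure ℝ) (hν : SiteLaw ν) : ∃ σ₀ : ℝ, 0 < σ₀ ∧ ∀ σ : ℝ, 0 < |σ| → |σ| ≤ σ₀ →
      ∀ᵐ ξ ∂(Measure.infinitePi fun _ : Fin d → ℤ => ν), ACOn (G fun x => σ * ξ x) a₁ a₂ := by
  obtain ⟨s1, hs1, h1⟩ := h ν hν
  obtain ⟨s2, hs2, h2⟩ := h _ (neg_law hν)
  refine ⟨min s1 s2, lt_min hs1 hs2, fun σ h3 h4 => ?_⟩
  rcases lt_or_gt_of_ne (abs_pos.1 h3) with h | h
  · rw [abs_of_neg h] at h3 h4
    have h5 := h2 (-σ) h3 (h4.trans (min_le_right _ _))
    have hm : Measurable fun t : ℝ => -t := measurable_neg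
    have := hν.1
    have := (neg_law hν).1
    have h6 : (Measure.infinitePi fun _ : Fin d → ℤ => ν.map fun t => -t) =
        (Measure.infinitePi fun _ : Fin d → ℤ => ν).map (fun ξ x => -ξ x) :=
      (Measure.infinitePi_map_pi (μ := fun _ : Fin d → ℤ => ν)
        (f := fun _ => fun t : ℝ => -t) (fun _ => hm)).symm
    rw [h6] at h5
    have h7 : Measurable fun (ξ : (Fin d → ℤ) → ℝ) (x : Fin d → ℤ) => -ξ x :=
      measurable_pi_lambda _ fun x => hm.comp (measurable_pi_apply x)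
    filter_upwards [ae_of_ae_map h7.aemeasurable h5] with ξ hξ
    have e : (fun x => -σ * -ξ x) = fun x => σ * ξ x := by
      funext x
      ring
    rw [e] at hξ
    exact hξ
  · rw [abs_of_pos h] at h3 h4
    exact h1 σ h3 (h4.trans (min_le_left _ _))

theorem unif_map {c : ℝ} (hc : 0 < c) : (unif 1).map (fun t => c * t) = unif c := by
  have hm : Measurable fun t : ℝ => c * t := measurable_const_mul c
  unfold unif
  rw [Measure.map_smul]
  have h1 : (fun t : ℝ => c * t) ⁻¹' (Set.Icc (-c) c) = Set.Icc (-1) 1 := by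
    ext t
    simp only [Set.mem_preimage, Set.mem_Icc]
    constructor
    · rintro ⟨h1, h2⟩
      constructor <;> nlinarith
    · rintro ⟨h1, h2⟩
      constructor <;> nlinarith
  have h2 := Measure.restrict_map (μ := (volume : Measure ℝ)) hm
    (measurableSet_Icc (a := -c) (b := c))
  rw [h1, Real.map_volume_mul_left hc.ne', Measure.restrict_smul] at h2
  rw [← h2, smul_smul]
  congr 1
  rw [abs_of_pos (inv_pos.2 hc), ENNReal.ofReal_inv_of_pos hc, mul_one,
    ENNReal.ofReal_mul (by norm_num : (0 : ℝ) ≤ 2),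
    ENNReal.mul_inv (Or.inr ENNReal.ofReal_ne_top) (Or.inl ENNReal.ofReal_ne_top)]

theorem unif_prob {c : ℝ} (hc : 0 < c) : IsProbabilityMeasure (unif c) := by
  refine ⟨?_⟩
  unfold unif
  rw [Measure.smul_apply, Measure.restrict_apply MeasurableSet.univ, Set.univ_inter,
    Real.volume_Icc, smul_eq_mul, sub_neg_eq_add, ← two_mul]
  exact ENNReal.inv_mul_cancel (by simpa using hc) ENNReal.ofReal_ne_top

theorem unif_law : SiteLaw (unif 1) := by
  have := unif_prob one_pos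
  refine ⟨this, ?_, fun a => ?_⟩
  · unfold unif
    refine Integrable.smul_measure ?_ (ENNReal.inv_ne_top.2 (by simp))
    exact (Continuous.integrableOn_Icc (by fun_prop))
  · have h : unif 1 {a} = 0 := by
      unfold unif
      rw [Measure.smul_apply, Measure.restrict_apply (measurableSet_singleton a)]
      rw [measure_mono_null Set.inter_subset_left Real.volume_singleton, smul_zero]
    rw [h]
    exact zero_lt_one

theorem unif_pi {d : ℕ} {c : ℝ} (hc : 0 < c) :
    (Measure.infinitePi fun _ : Fin d → ℤ => unif c) =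
      (Measure.infinitePi fun _ : Fin d → ℤ => unif 1).map (fun ξ x => c * ξ x) := by
  have := unif_prob one_pos
  rw [← unif_map hc]
  exact (Measure.infinitePi_map_pi (μ := fun _ : Fin d → ℤ => unif 1)
        (f := fun _ => fun t : ℝ => c * t) (fun _ => measurable_const_mul c)).symm

theorem result (d : ℕ) (hd : 0 < d) :
    (∀ (K : C(UnitAddTorus (Fin d), ℝ)) (ε : ℝ), (∃ k k', K k ≠ K k') → 0 < ε →
      ∃ b : C(ℝ, ℝ), (∀ t, |b t| ≤ ε) ∧
        (∀ x : Fin d → ℤ,
          ‖hopping (b.comp (lapSymbol d)) x‖ ≤ ε / (1 + ‖x‖) ^ ((d : ℝ) / 3)) ∧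
        ∀ ν : Measure ℝ, SiteLaw ν → ∃ σ₀ : ℝ, 0 < σ₀ ∧ ∀ σ : ℝ, 0 < |σ| → |σ| ≤ σ₀ →
          ∀ᵐ ξ ∂(Measure.infinitePi fun _ : Fin d → ℤ => ν),
            ACOn (IsGreen (K + b.comp (lapSymbol d)) fun x => σ * ξ x) (⨅ k, K k) (⨆ k, K k)) ∧
    (∀ ε : ℝ, 0 < ε → ∃ b : C(ℝ, ℝ), (∀ t, |b t| ≤ ε) ∧
        (∀ x : Fin d → ℤ,
          ‖hopping (b.comp (lapSymbol d)) x‖ ≤ ε / (1 + ‖x‖) ^ ((d : ℝ) / 3)) ∧
        (∃ c₀ : ℝ, 0 < c₀ ∧ ∀ c : ℝ, 0 < c → c ≤ c₀ →
          ∀ᵐ ω ∂(Measure.infinitePi fun _ : Fin d → ℤ => unif c),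
            ACOn (IsGreenLap b ω) 0 (4 * d)) ∧
        ∀ ν : Measure ℝ, SiteLaw ν → ∃ σ₀ : ℝ, 0 < σ₀ ∧ ∀ σ : ℝ, 0 < |σ| → |σ| ≤ σ₀ →
          ∀ᵐ ξ ∂(Measure.infinitePi fun _ : Fin d → ℤ => ν),
            ACOn (IsGreenLap b fun x => σ * ξ x) 0 (4 * d)) := by
  have key : ∀ (K : C(UnitAddTorus (Fin d), ℝ)) (ε : ℝ), (⨅ k, K k) < (⨆ k, K k) → 0 < ε →
      ∃ b : C(ℝ, ℝ), (∀ t, |b t| ≤ ε) ∧
        (∀ x : Fin d → ℤ,
          ‖hopping (b.comp (lapSymbol d)) x‖ ≤ ε / (1 + ‖x‖) ^ ((d : ℝ) / 3)) ∧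
        ∀ ν : Measure ℝ, SiteLaw ν → ∃ σ₀ : ℝ, 0 < σ₀ ∧ ∀ σ : ℝ, 0 < |σ| → |σ| ≤ σ₀ →
          ∀ᵐ ξ ∂(Measure.infinitePi fun _ : Fin d → ℤ => ν),
            ACOn (IsGreen (K + b.comp (lapSymbol d)) fun x => σ * ξ x)
              (⨅ k, K k) (⨆ k, K k) := by
    intro K ε hlt hε
    obtain ⟨g, hg, hgd, h⟩ := W792.WA.Al.kfdc d K ε hd hε hlt
    have hcomp : g.comp (lapSymbol d) = W792.WA.gK g d := rfl
    refine ⟨g, hg, fun x => ?_, ?_⟩
    · rw [hcomp]
      exact hgd x
    · rw [hcomp]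
      refine both (G := fun V => IsGreen (K + W792.WA.gK g d) V) fun ν hν => ?_
      have := hν.1
      obtain ⟨σ₀, h0, h1⟩ := h ν hν.2.1 hν.2.2
      refine ⟨σ₀, h0, fun σ h2 h3 => ?_⟩
      filter_upwards [h1 σ h2 h3] with ξ hξ
      exact acon_of hξ
  have hbdd : ∀ K : C(UnitAddTorus (Fin d), ℝ), BddAbove (Set.range K) ∧ BddBelow (Set.range K) :=
    fun K => ⟨(isCompact_range K.continuous).bddAbove, (isCompact_range K.continuous).bddBelow⟩
  refine ⟨fun K ε hK hε => key K ε ?_ hε, fun ε hε => ?_⟩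
  · obtain ⟨k, k', hkk⟩ := hK
    rcases lt_or_gt_of_ne hkk with h | h
    · exact lt_of_le_of_lt (ciInf_le (hbdd K).2 k) (lt_of_lt_of_le h (le_ciSup (hbdd K).1 k'))
    · exact lt_of_le_of_lt (ciInf_le (hbdd K).2 k') (lt_of_lt_of_le h (le_ciSup (hbdd K).1 k))
  · have h1 : (⨅ k, lapSymbol d k) = 0 := by rw [← lap_eq]; exact W792.WA.Br.lap_inf d
    have h2 : (⨆ k, lapSymbol d k) = 4 * d := by rw [← lap_eq]; exact W792.WA.Br.lap_sup d
    have hd' : (0 : ℝ) < d := by exact_mod_cast hd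
    obtain ⟨b, hb1, hb2, hb3⟩ := key (lapSymbol d) ε (by rw [h1, h2]; linarith) hε
    have e : ∀ V : (Fin d → ℤ) → ℝ,
        IsGreen (lapSymbol d + b.comp (lapSymbol d)) V = IsGreenLap b V := by
      intro V
      funext z x u
      refine propext ?_
      have h3 := W792.WA.Br.sol_iff (b.comp (lapSymbol d)) 1 V z x u
      rw [lap_eq] at h3
      have h4 : IsGreen (lapSymbol d + b.comp (lapSymbol d)) V z x u ↔
          W792.LL.Sol (W792.LL.hopK (lapSymbol d + b.comp (lapSymbol d))) 1 V z x u := by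
        unfold IsGreen W792.LL.Sol
        simp only [one_mul]
        rfl
      rw [h4, h3]
      unfold IsGreenLap
      have h5 : ∀ y, (-∑ i : Fin d, ((u (y + Pi.single i 1) - u y) + (u (y - Pi.single i 1) - u y)))
          = ∑ i : Fin d, (2 * u y - u (y + Pi.single i 1) - u (y - Pi.single i 1)) := by
        intro y
        rw [← Finset.sum_neg_distrib]
        exact Finset.sum_congr rfl fun i _ => by ring
      simp only [h5, one_mul]
      rfl
    have hall : ∀ ν : Measure ℝ, SiteLaw ν → ∃ σ₀ : ℝ, 0 < σ₀ ∧ ∀ σ : ℝ, 0 < |σ| → |σ| ≤ σ₀ →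
          ∀ᵐ ξ ∂(Measure.infinitePi fun _ : Fin d → ℤ => ν),
            ACOn (IsGreenLap b fun x => σ * ξ x) 0 (4 * d) := by
      intro ν hν
      obtain ⟨σ₀, h0, h3⟩ := hb3 ν hν
      refine ⟨σ₀, h0, fun σ h4 h5 => ?_⟩
      filter_upwards [h3 σ h4 h5] with ξ hξ
      rw [h1, h2, e] at hξ
      exact hξ
    refine ⟨b, hb1, hb2, ?_, hall⟩
    obtain ⟨c₀, h0, h3⟩ := hall _ unif_law
    refine ⟨c₀, h0, fun c hc hcc => ?_⟩
    have h4 := h3 c (abs_pos.2 hc.ne') (by rwa [abs_of_pos hc])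
    have hm : Measurable fun (ξ : (Fin d → ℤ) → ℝ) (x : Fin d → ℤ) => c * ξ x :=
      measurable_pi_lambda _ fun x => (measurable_const_mul c).comp (measurable_pi_apply x)
    rw [unif_pi hc]
    have hemb : MeasurableEmbedding fun (ξ : (Fin d → ℤ) → ℝ) (x : Fin d → ℤ) => c * ξ x := by
      refine MeasurableEquiv.measurableEmbedding
        (MeasurableEquiv.piCongrRight fun _ : Fin d → ℤ => MeasurableEquiv.mulLeft₀ c hc.ne')
    rw [hemb.ae_map_iff]
    exact h4

end

end Pool.Agent.Results.MP_562b47_mp.EveryKineticEnergy
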