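import Pool.Agent.X133.L2.Unif
import Pool.Agent.W193.BK.ES
import Pool.Agent.W240.BK.Var
import Pool.Agent.W540.BK.Fac
import Pool.Agent.W240.BK.Fluct
import Pool.Agent.W918.BK.Osc
import Pool.Agent.W240.BK.Two
import Pool.Agent.W465.BK.QB
import Pool.Agent.W475.BK.Low
import Pool.Agent.W975.BK.Sup
import Pool.Agent.W790.BK.ADM
import Pool.Agent.W475.BK.Inv
import Pool.Agent.W261.BK.Third

/-!
# Uniform disorder, dimension two: the local law for the spectral measures below the kinetic scale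

`Δ_ω = -Δ + ω` on `ℤ²` with iid `ω_j` uniform on `[-c, c]`, `c ≤ c₀(κ)`. With probability at least
`1 - exp(-c^{-1/101})`, for all sites `|a| ≤ exp(c^{-1/101})`, all energies `e` with
`κ ≤ |4 - e| ≤ 4 - κ` (so the distance to the edges `0`, `8` and to the van Hove singularity `4` is
at least `κ`) and all `c^{83/41} ≤ s ≤ κ/8`, the spectral measure `m` of `δ_a` satisfies

`| m [e - s, e + s] - ∫_{e-s}^{e+s} π⁻¹ Im γ(4 - E) dE | ≤ c^{1/2500} s`,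

where `γ(E)` is the boundary value at `E + i0` of
`∫_{[0,1]²} (2 cos 2πk_1 + 2 cos 2πk_2 - z)⁻¹ dk`: the density is that of the free operator `-Δ`.
The exponent `83/41 = 2 + 1/41` is beyond the kinetic scale `c²`. In dimension two the starting
results have upper bounds only: `MP_562b47_mp.FlatSpectralMeasures` (scales `≥ c² log³`) and
`MP_e921a3_mp.BelowKinetic2D` (with `log²`); here the local density is determined, also from below,
up to a factor `1 + O(c^{1/2500})`.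
-/

set_option autoImplicit false

open scoped BigOperators ENNReal Topology
open MeasureTheory Filter

namespace Pool.Agent.Results.MP_562b47_mp.LocalLaw2D

/-- the uniform law on `[-c, c]` -/
noncomputable def unif (c : ℝ) : Measure ℝ :=
  ENNReal.ofReal (1 / (2 * c)) • volume.restrict (Set.Icc (-c) c)

/-- `(Δ_ω u)(j) = -∑_{|n|=1} (u(j+n) - u(j)) + ω_j u(j)` on `ℤ²` -/
noncomputable def H (ω : (Fin 2 → ℤ) → ℝ) (u : (Fin 2 → ℤ) → ℂ) (j : Fin 2 → ℤ) : ℂ :=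
  -∑ i : Fin 2, ((u (j + Pi.single i 1) - u j) + (u (j - Pi.single i 1) - u j)) + (ω j : ℂ) * u j

/-- `m` is the spectral measure of `δ_a` for the self-adjoint operator `A`: a finite measure whose
Borel transform `∫ (E - z)⁻¹ dm(E)` is `⟨δ_a, (A - z)⁻¹ δ_a⟩` for all non-real `z` -/
def IsSpectralMeasure (A : ((Fin 2 → ℤ) → ℂ) → (Fin 2 → ℤ) → ℂ) (a : Fin 2 → ℤ)
    (m : Measure ℝ) : Prop :=
  IsFiniteMeasure m ∧ ∀ z : ℂ, z.im ≠ 0 → ∃ u : (Fin 2 → ℤ) → ℂ,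
    (Summable fun x => ‖u x‖ ^ 2) ∧ (∀ x, A u x - z * u x = if x = a then 1 else 0) ∧
    ∫ E : ℝ, ((E : ℂ) - z)⁻¹ ∂m = u a

/-- `∫_0^1 exp(-is · 2 cos 2πx) dx` -/
noncomputable def p0 (s : ℝ) : ℂ :=
  ∫ x in (0 : ℝ)..1, Complex.exp (Complex.I * ((-s * (2 * Real.cos (2 * Real.pi * x)) : ℝ) : ℂ))

/-- `∫_{[0,1]²} (2 cos 2πk_1 + 2 cos 2πk_2 - z)⁻¹ dk`, `Im z > 0` -/
noncomputable def g0 (z : ℂ) : ℂ :=
  Complex.I * ∫ s in Set.Ioi (0 : ℝ), p0 s ^ 2 * Complex.exp (Complex.I * z * s)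

theorem g0_eq (z : ℂ) : g0 z = Pool.Agent.TH794.QD.GF (Pool.Agent.TH794.QD.F0 2) z := rfl

theorem H_eq (ω : (Fin 2 → ℤ) → ℝ) (u : (Fin 2 → ℤ) → ℂ) (x : Fin 2 → ℤ) :
    H ω u x = -Pool.Agent.W788.LD.Spec.S u x + ((2 * ((2 : ℕ) : ℝ) + ω x : ℝ) : ℂ) * u x := by
  unfold H Pool.Agent.W788.LD.Spec.S
  rw [Fin.sum_univ_two, Fin.sum_univ_two]
  push_cast
  ring

theorem res_of {c : ℝ} (hc : 0 < c) {ω : (Fin 2 → ℤ) → ℝ} {a : Fin 2 → ℤ} {m : Measure ℝ}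
    (h : IsSpectralMeasure (H ω) a m) :
    Pool.Agent.TH794.LL2.Res 2 (fun x => 2 * ((2 : ℕ) : ℝ) + c * (ω x / c)) a m := by
  intro z hz
  obtain ⟨u, hu, heq, hint⟩ := h.2 z hz
  refine ⟨u, hu, fun x => ?_, ?_⟩
  · have h3 : c * (ω x / c) = ω x := by field_simp
    have h4 := heq x
    rw [H_eq] at h4
    rw [Pi.single_apply, ← h4]
    simp only [h3]
  · rw [hint, tsum_eq_single a]
    · simp
    · intro x hx
      rw [Pi.single_eq_of_ne hx]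
      simp

/-- **Theorem.** -/
theorem result : ∃ γ : ℝ → ℂ, ∀ κ : ℝ, 0 < κ → κ ≤ 1 →
    (∀ E : ℝ, κ ≤ |E| → |E| ≤ 4 - κ →
      Tendsto (fun t : ℝ => g0 ((E : ℂ) + (t : ℂ) * Complex.I)) (𝓝[>] 0) (𝓝 (γ E))) ∧
    (∃ k : ℝ, 0 < k ∧ ∀ E : ℝ, κ ≤ |E| → |E| ≤ 4 - κ → k ≤ (γ E).im) ∧
    (∃ C : ℝ, 0 < C ∧ ∀ E E' : ℝ, κ ≤ |E| → |E| ≤ 4 - κ → κ ≤ |E'| → |E'| ≤ 4 - κ →
      ‖γ E‖ ≤ C ∧ ‖γ E - γ E'‖ ≤ C * |E - E'| ^ (1 / 8 : ℝ)) ∧
    ∃ c0 : ℝ, 0 < c0 ∧ ∀ c : ℝ, 0 < c → c ≤ c0 →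
      ∃ G : Set ((Fin 2 → ℤ) → ℝ), MeasurableSet G ∧
        1 - Real.exp (-c ^ (-(1 / 101) : ℝ)) ≤
          (Measure.infinitePi fun _ : Fin 2 → ℤ => unif c).real G ∧
        ∀ ω ∈ G, ∀ a : Fin 2 → ℤ, ‖a‖ ≤ Real.exp (c ^ (-(1 / 101) : ℝ)) →
          ∀ m : Measure ℝ, IsSpectralMeasure (H ω) a m →
          ∀ e : ℝ, κ ≤ |4 - e| → |4 - e| ≤ 4 - κ → ∀ s : ℝ, c ^ (83 / 41 : ℝ) ≤ s → s ≤ κ / 8 →
            |m.real (Set.Icc (e - s) (e + s)) -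
              ∫ E in (e - s)..(e + s), Real.pi⁻¹ * (γ (4 - E)).im| ≤ c ^ (1 / 2500 : ℝ) * s := by
  obtain ⟨γ, h⟩ := Pool.Agent.X133.L2.law2 Pool.Agent.W193.BK.ES.es
    (Pool.Agent.W261.BK.third Pool.Agent.W540.BK.fac)
    (Pool.Agent.W240.BK.fluct (Pool.Agent.W240.BK.var Pool.Agent.W193.BK.ES.es))
    Pool.Agent.W475.BK.inv Pool.Agent.W975.BK.sup
    (Pool.Agent.W465.BK.qb (Pool.Agent.W240.BK.two Pool.Agent.W918.BK.Osc.osc))
    Pool.Agent.W475.BK.low Pool.Agent.W790.BK.ADM.adm Pool.Agent.W540.BK.fac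
    Pool.Agent.W918.BK.Osc.osc
  refine ⟨γ, fun κ hκ hκ1 => ?_⟩
  obtain ⟨h1, h2, h3, h4⟩ := h κ hκ hκ1
  obtain ⟨lam0, hlam0, h5⟩ := h4 1 (1 / 3) one_pos (by norm_num)
  refine ⟨h1, h2, h3, lam0, hlam0, fun c hc hcl => ?_⟩
  have hu1 := Pool.Agent.W788.LD.Uni.unif_prob 1 one_pos
  have huc : IsProbabilityMeasure (unif c) := Pool.Agent.W788.LD.Uni.unif_prob c hc
  obtain ⟨G, hG, hP, hb⟩ := h5 c hc hcl (Pool.Agent.W788.LD.Uni.unif 1) hu1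
    (Pool.Agent.W788.LD.Uni.unif_bdd 1) 0 (1 / 3) Pool.Agent.X133.L2.unif_mean
    Pool.Agent.X133.L2.unif_var le_rfl
  have hTm : Measurable (fun (ω : (Fin 2 → ℤ) → ℝ) x => ω x / c) := by fun_prop
  have hlaw : (Measure.infinitePi fun _ : Fin 2 → ℤ => unif c).map (fun ω x => ω x / c) =
      Measure.infinitePi fun _ : Fin 2 → ℤ => Pool.Agent.W788.LD.Uni.unif 1 := by
    have h1 := Measure.infinitePi_map_pi (μ := fun _ : Fin 2 → ℤ => unif c)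
      (f := fun _ (s : ℝ) => s / c) (fun _ => by fun_prop)
    rw [h1]
    congr 1
    funext _
    exact Pool.Agent.W788.BK.Unif.unif_scale c hc
  refine ⟨(fun ω x => ω x / c) ⁻¹' G, hTm hG, ?_, ?_⟩
  · have h1 : (Measure.infinitePi fun _ : Fin 2 → ℤ => unif c).real
        ((fun ω x => ω x / c) ⁻¹' G) =
        (Measure.infinitePi fun _ : Fin 2 → ℤ => Pool.Agent.W788.LD.Uni.unif 1).real G := by
      rw [← hlaw, map_measureReal_apply hTm hG]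
    rw [h1]
    exact hP
  · intro ω hω a ha m hm e he1 he2 s hs1 hs2
    have h6 := hb _ hω a ha m hm.1 (res_of hc hm) e (by rw [mul_zero, add_zero]; exact he1)
      (by rw [mul_zero, add_zero]; exact he2) s hs1 hs2
    rw [intervalIntegral.integral_const_mul]
    simpa only [mul_zero, add_zero] using h6

end Pool.Agent.Results.MP_562b47_mp.LocalLaw2D
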