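import Pool.Agent.X133.QM.Main
import Pool.Agent.X133.QM.Pos
import Pool.Agent.W788.LD.Uni
import Pool.Agent.W193.BK.ES
import Pool.Agent.W240.BK.Var
import Pool.Agent.W540.BK.Fac
import Pool.Agent.W240.BK.Fluct
import Pool.Agent.W918.BK.Osc
import Pool.Agent.W240.BK.Two
import Pool.Agent.W465.BK.QB
import Pool.Agent.W475.BK.Low
import Pool.Agent.W975.BK.Sup
import Pool.Agent.W790.BK.ADM
import Pool.Agent.W475.BK.Inv
import Pool.Agent.W261.BK.Third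

/-!
# Uniform disorder, `d ≥ 3`: the mean square displacement from every site, for one realization

`Δ_ω = -Δ + ω` on `ℤ^d`, `d ≥ 3`, `ω_j` iid uniform on `[-c, c]` (or with any law on `[-c, c]` of
mean zero and variance `V ≥ v c²`; for the uniform law `V = c²/3`), in infinite volume. Let
`ψ_t = e^{-itΔ_ω} δ_a` and, for a coordinate `j`,

`msd(t) = ∑_x (x_j - a_j)² |ψ_t(x)|²`.

With the boundary values `g₀`, `g₁` of the free resolvent and the positive number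
`Γ_d = ∫_{-2d}^{2d} Im g₁(E) / Im g₀(E) dE`: on one event of probability at least
`1 - exp(-c^{-1/101})`, for ALL sites `|a| ≤ exp(c^{-1/101})`, all coordinates `j` and all
`c^{2 + 1/41} ≤ s ≤ V / K`

`|∫_0^∞ s φ(s t) (s V msd(t) - (4/π) Γ_d (s t)) dt| ≤ ε`,

`φ` continuous of compact support, `ε > 0`, `K = K(d, φ, ε)`, `c ≤ c₀`. So, averaged over times `t`
of the order `1/s`, the mean square displacement is `(4/π) Γ_d t / V`, linear in the time with a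
positive and explicit constant (the one of the linear Boltzmann equation, integrated over the
energies), from a large multiple of the kinetic time `1/V` up to `c^{-2 - 1/41}`, beyond it: the
particle moves diffusively from every site, neither ballistically nor localized on these scales, and
no average over the disorder, the initial site or the energy is taken. (`msd` is finite for almost
every time and `exp(-2Vt) msd(t)` is integrable, so the integrals exist.) The second moment is not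
determined by the weak limits of the position, since the far tails of `|ψ_t|²` have to be
controlled.
-/

set_option autoImplicit false

open scoped BigOperators
open MeasureTheory

namespace Pool.Agent.Results.MP_562b47_mp.MeanSquareDisplacement

/-- the uniform law on `[-c, c]` -/
noncomputable def unif (c : ℝ) : Measure ℝ :=
  ENNReal.ofReal (1 / (2 * c)) • volume.restrict (Set.Icc (-c) c)

/-- `(Δ_ω u)(j) = -∑_{|n|=1} (u(j+n) - u(j)) + ω_j u(j)` on `ℤ^d` -/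
noncomputable def H {d : ℕ} (ω : (Fin d → ℤ) → ℝ) (u : (Fin d → ℤ) → ℂ) (j : Fin d → ℤ) : ℂ :=
  -∑ i : Fin d, ((u (j + Pi.single i 1) - u j) + (u (j - Pi.single i 1) - u j)) + (ω j : ℂ) * u j

/-- `ψ` is the solution of the Schrödinger equation `i ∂_t ψ = Δ_ω ψ` on `ℤ^d` which starts at the
site `a` -/
structure Evolution {d : ℕ} (ω : (Fin d → ℤ) → ℝ) (a : Fin d → ℤ)
    (ψ : ℝ → (Fin d → ℤ) → ℂ) : Prop where
  init : ∀ x, ψ 0 x = if x = a then 1 else 0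
  ode : ∀ t x, HasDerivAt (fun t => ψ t x) (-Complex.I * H ω (ψ t) x) t
  norm : ∀ t, HasSum (fun x => ‖ψ t x‖ ^ 2) 1

/-- `∑_x (x_j - a_j)² |ψ_t(x)|²` -/
noncomputable def msd {d : ℕ} (ψ : ℝ → (Fin d → ℤ) → ℂ) (a : Fin d → ℤ) (j : Fin d) (t : ℝ) : ℝ :=
  ∑' x : Fin d → ℤ, ((x j : ℝ) - a j) ^ 2 * ‖ψ t x‖ ^ 2

/-- `∫_0^1 exp(-is · 2 cos 2πx) dx` -/
noncomputable def p0 (s : ℝ) : ℂ :=
  ∫ x in (0 : ℝ)..1, Complex.exp (Complex.I * ((-s * (2 * Real.cos (2 * Real.pi * x)) : ℝ) : ℂ))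

/-- `∫_0^1 sin²(2πx) exp(-is · 2 cos 2πx) dx` -/
noncomputable def p1 (s : ℝ) : ℂ :=
  ∫ x in (0 : ℝ)..1, ((Real.sin (2 * Real.pi * x) ^ 2 : ℝ) : ℂ) *
    Complex.exp (Complex.I * ((-s * (2 * Real.cos (2 * Real.pi * x)) : ℝ) : ℂ))

/-- the boundary value `∫_{[0,1]^d} (∑ 2 cos 2πk_i - E - i0)⁻¹ dk` -/
noncomputable def g0 (d : ℕ) (E : ℝ) : ℂ :=
  Complex.I * ∫ s in Set.Ioi (0 : ℝ), p0 s ^ d * Complex.exp (Complex.I * (E : ℂ) * s)

/-- the boundary value `∫_{[0,1]^d} sin²(2πk_1) (∑ 2 cos 2πk_i - E - i0)⁻¹ dk` -/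
noncomputable def g1 (d : ℕ) (E : ℝ) : ℂ :=
  Complex.I * ∫ s in Set.Ioi (0 : ℝ), p1 s * p0 s ^ (d - 1) * Complex.exp (Complex.I * (E : ℂ) * s)

/-- `Γ_d = ∫_{[-2d,2d]} Im g₁(E) / Im g₀(E) dE` -/
noncomputable def Gamma (d : ℕ) : ℝ :=
  ∫ E in Set.Icc (-(2 * d : ℝ)) (2 * d), (g1 d E).im / (g0 d E).im

theorem gamma_eq (d : ℕ) : Gamma d = Pool.Agent.X133.QM.Gam d := rfl

theorem g1_eq (d : ℕ) (E : ℝ) : g1 d E = Pool.Agent.TH794.QD.GF (Pool.Agent.TH794.QD.F1 d) E := rfl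

theorem H_eq {d : ℕ} (ω : (Fin d → ℤ) → ℝ) (u : (Fin d → ℤ) → ℂ) (x : Fin d → ℤ) :
    H ω u x = -Pool.Agent.W788.LD.Spec.S u x + ((2 * d + ω x : ℝ) : ℂ) * u x := by
  unfold H Pool.Agent.W788.LD.Spec.S
  have h2 : ∑ i : Fin d, ((u (x + Pi.single i 1) - u x) + (u (x - Pi.single i 1) - u x)) =
      ∑ i : Fin d, (u (x + Pi.single i 1) + u (x - Pi.single i 1)) - 2 * (d : ℂ) * u x := by
    rw [Finset.sum_add_distrib, Finset.sum_sub_distrib, Finset.sum_sub_distrib,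
      Finset.sum_add_distrib]
    simp
    ring
  rw [h2]
  push_cast
  ring

theorem sol_iff {d : ℕ} {ω : (Fin d → ℤ) → ℝ} {a : Fin d → ℤ} {ψ : ℝ → (Fin d → ℤ) → ℂ} :
    Evolution ω a ψ ↔ Pool.Agent.TH794.QD.Sol d (fun x => 2 * d + ω x) a ψ := by
  constructor
  · intro h
    exact ⟨h.init, fun t x => (h.ode t x).congr_deriv (by rw [H_eq]), h.norm⟩
  · intro h
    exact ⟨h.init, fun t x => (h.ode t x).congr_deriv (by rw [H_eq]), h.norm⟩

theorem unif_sq (c : ℝ) (hc : 0 < c) : ∫ s, s ^ 2 ∂(unif c) = c ^ 2 / 3 := by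
  unfold unif
  rw [integral_smul_measure, integral_Icc_eq_integral_Ioc,
    ← intervalIntegral.integral_of_le (by linarith), integral_pow,
    ENNReal.toReal_ofReal (by positivity), smul_eq_mul]
  push_cast
  field_simp
  ring

/-- **Theorem.** -/
theorem result (d : ℕ) (hd : 3 ≤ d) :
    (0 < Gamma d ∧ ∀ c : ℝ, 0 < c → IsProbabilityMeasure (unif c) ∧
      (∀ᵐ s ∂(unif c), |s| ≤ c) ∧ ∫ s, s ∂(unif c) = 0 ∧ ∫ s, s ^ 2 ∂(unif c) = c ^ 2 / 3) ∧
    ∀ φ : ℝ → ℝ, Continuous φ → HasCompactSupport φ →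
    ∀ v ε : ℝ, 0 < v → 0 < ε → ∃ K c0 : ℝ, 1 ≤ K ∧ 0 < c0 ∧ ∀ c : ℝ, 0 < c → c ≤ c0 →
    ∀ (μ : Measure ℝ) [IsProbabilityMeasure μ], (∀ᵐ s ∂μ, |s| ≤ c) → ∫ s, s ∂μ = 0 →
    ∀ V : ℝ, ∫ s, s ^ 2 ∂μ = V → v * c ^ 2 ≤ V →
      ∃ G : Set ((Fin d → ℤ) → ℝ), MeasurableSet G ∧
        1 - Real.exp (-c ^ (-(1 / 101) : ℝ)) ≤
          (Measure.infinitePi fun _ : Fin d → ℤ => μ).real G ∧
        ∀ ω ∈ G, ∀ a : Fin d → ℤ, ‖a‖ ≤ Real.exp (c ^ (-(1 / 101) : ℝ)) →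
          (∃ ψ, Evolution ω a ψ) ∧
          ∀ ψ, Evolution ω a ψ → ∀ j : Fin d,
            (∀ᵐ t ∂(volume.restrict (Set.Ioi (0 : ℝ))),
              Summable fun x : Fin d → ℤ => ((x j : ℝ) - a j) ^ 2 * ‖ψ t x‖ ^ 2) ∧
            IntegrableOn (fun t => Real.exp (-(2 * V) * t) * msd ψ a j t) (Set.Ioi (0 : ℝ)) ∧
            ∀ s : ℝ, c ^ (83 / 41 : ℝ) ≤ s → s ≤ V / K →
              |∫ t in Set.Ioi (0 : ℝ), s * φ (s * t) *
                (s * V * msd ψ a j t - 4 / Real.pi * Gamma d * (s * t))| ≤ ε := by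
  have hES := Pool.Agent.W193.BK.ES.es
  have hTH := Pool.Agent.W261.BK.third Pool.Agent.W540.BK.fac
  have hFL := Pool.Agent.W240.BK.fluct (Pool.Agent.W240.BK.var Pool.Agent.W193.BK.ES.es)
  have hIN := Pool.Agent.W475.BK.inv
  have hSU := Pool.Agent.W975.BK.sup
  have hQB := Pool.Agent.W465.BK.qb (Pool.Agent.W240.BK.two Pool.Agent.W918.BK.Osc.osc)
  have hLO := Pool.Agent.W475.BK.low
  have hAD := Pool.Agent.W790.BK.ADM.adm
  have hFA := Pool.Agent.W540.BK.fac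
  have hO := Pool.Agent.W918.BK.Osc.osc
  refine ⟨⟨?_, fun c hc => ⟨Pool.Agent.W788.LD.Uni.unif_prob c hc,
    Pool.Agent.W788.LD.Uni.unif_bdd c, Pool.Agent.W788.LD.Uni.unif_mean c hc, unif_sq c hc⟩⟩, ?_⟩
  · obtain ⟨⟨m, hm, hl⟩, -⟩ := Pool.Agent.TH794.HK.finN hES hTH hFL hIN hSU hQB hLO hAD hFA hO d hd
      1 one_pos le_rfl
    have hd3 : (3 : ℝ) ≤ d := by exact_mod_cast hd
    rw [gamma_eq]
    exact Pool.Agent.X133.QM.gam_pos hO d hd m hm fun E hE => (hl E (by linarith)).1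
  intro φ hφ hφs v ε hv hε
  obtain ⟨K, c0, hK, hc0, h⟩ := Pool.Agent.X133.QM.msd3 hES hTH hFL hIN hSU hQB hLO hAD hFA hO
    d hd φ hφ hφs v ε hv hε
  refine ⟨K, c0, hK, hc0, fun c hc hcc μ hμ hμb hμ0 V hV hvV => ?_⟩
  obtain ⟨G, hG, hP, hL⟩ := h c hc hcc μ hμ hμb hμ0 V hV hvV
  refine ⟨G, hG, hP, fun ω hω a ha => ?_⟩
  obtain ⟨⟨ψ, hψ⟩, h2⟩ := hL ω hω a ha
  refine ⟨⟨ψ, sol_iff.2 hψ⟩, fun ψ hψ j => ?_⟩
  obtain ⟨h3, h3', h4⟩ := h2 ψ (sol_iff.1 hψ) j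
  refine ⟨h3, h3', fun s hs1 hs2 => ?_⟩
  have h5 := h4 s hs1 hs2
  have h6 : (∫ t in Set.Ioi (0 : ℝ), s * φ (s * t) *
      (s * V * msd ψ a j t - 4 / Real.pi * Gamma d * (s * t))) =
      ∫ t in Set.Ioi (0 : ℝ), s * φ (s * t) * (s * V * Pool.Agent.X133.QM.Fs ψ a j t -
        4 / Real.pi * Pool.Agent.X133.QM.Gam d * s * t) := by
    refine integral_congr_ae (ae_of_all _ fun t => ?_)
    have h7 : msd ψ a j t = Pool.Agent.X133.QM.Fs ψ a j t := rfl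
    change s * φ (s * t) * (s * V * msd ψ a j t - 4 / Real.pi * Gamma d * (s * t)) =
      s * φ (s * t) * (s * V * Pool.Agent.X133.QM.Fs ψ a j t -
        4 / Real.pi * Pool.Agent.X133.QM.Gam d * s * t)
    rw [h7, gamma_eq]
    ring
  rw [h6]
  exact h5

end Pool.Agent.Results.MP_562b47_mp.MeanSquareDisplacement
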